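import Pool.Agent.Lib.MP_d439b2_co.A0.Spec

/-!
# MP_d439b2_co, A0/A0: assembly (helper69)
-/

set_option autoImplicit false

namespace Pool.Agent.MPd439b2.A0

open Pool.Agent.MPd439b2 Pool.Agent.MPd439b2.Rep Pool.Agent.MPd439b2.F9

/-- **Theorem A0.** -/
theorem aA0 (h1 : W.S_RamC) (h2 : S_Rs) (h3 : S_Cu) (h4 : S_Q0) (h5 : KS.S_U9) (h6 : KS.S_Z0)
    (h7 : S_I1) (h8 : S_Kt)
    (h9 : ∀ (W₁ W₂ : Type) [Finite W₁] [Finite W₂] (H₁ : SimpleGraph W₁) (H₂ : SimpleGraph W₂),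
      Good H₁ H₂ → BoundedCW H₁ H₂) (h10 : KS.S_Y8) : S_A0 := by
  intro s t β
  obtain ⟨c₁, hc⟩ := h3 h1 s t
  obtain ⟨N, hN⟩ := hc β
  obtain ⟨M, hM⟩ := h2 h1 s N
  obtain ⟨t₀, ht⟩ := h4 h5 h6 h7 (max M (β c₁ + 1))
  obtain ⟨k, hk⟩ := h8 h9 h10 t₀
  refine ⟨c₁, k, fun V _ G hF hL hCl => hk V G hF.1 ?_⟩
  rintro ⟨B, hB⟩
  obtain ⟨Q₁, Q₂, -, hn1, hn2, hadj⟩ := ht V G B hF.1 hB
  obtain ⟨Q, hQ, hSt, hNQ⟩ := hM V G hCl Q₁ (le_trans (le_max_left _ _) hn1)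
  have e1 := hN c₁ le_rfl V G hF hCl hL Q hSt hNQ
  have e2 : Q₂.ncard ≤ {v | ∀ x ∈ Q, G.Adj v x}.ncard :=
    Set.ncard_le_ncard (fun v hv x hx => (hadj x (hQ hx) v hv).symm) (Set.toFinite _)
  have e3 := le_max_right M (β c₁ + 1)
  omega

end Pool.Agent.MPd439b2.A0
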