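import Pool.Agent.Lib.MP_d439b2_co.A0.Spec

/-!
# MP_d439b2_co, A0, Cl: cleaning of a stable set
-/

set_option autoImplicit false

namespace Pool.Agent.MPd439b2.A0

open Pool.Agent.MPd439b2
open Pool.Agent.MPd439b2.Rep
open Pool.Agent.MPd439b2.F9

namespace aClAux

/-- the sequences of the claim -/
theorem claim {V : Type} [Finite V] (G : SimpleGraph V) (Q : Set V) (n' K : ℕ)
    (hN : 10 ^ K * (n' + 1) ≤ Q.ncard)
    (hno : ∀ Q' ⊆ Q, n' ≤ Q'.ncard → ∃ v, (¬ ∀ x ∈ Q', G.Adj v x) ∧
      Q'.ncard ≤ 10 * {x | x ∈ Q' ∧ G.Adj v x}.ncard) :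
    ∀ k ≤ K, ∃ (v q : ℕ → V) (Qk : Set V), Qk ⊆ Q ∧ 10 ^ (K - k) * (n' + 1) ≤ Qk.ncard ∧
      (∀ i < k, q i ∈ Q ∧ ¬ G.Adj (v i) (q i)) ∧
      (∀ i j, i < j → j < k → G.Adj (v i) (q j)) ∧ ∀ i < k, ∀ x ∈ Qk, G.Adj (v i) x := by
  classical
  intro k
  induction k with
  | zero =>
    intro _
    have h1 : 0 < Q.ncard := lt_of_lt_of_le (by positivity) hN
    obtain ⟨x, -⟩ := Set.nonempty_of_ncard_ne_zero h1.ne'
    exact ⟨fun _ => x, fun _ => x, Q, subset_rfl, by simpa using hN,
      fun i hi => absurd hi (Nat.not_lt_zero i), fun i j _ hj => absurd hj (Nat.not_lt_zero j),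
      fun i hi => absurd hi (Nat.not_lt_zero i)⟩
  | succ k ih =>
    intro hk
    obtain ⟨v, q, Qk, hQ, hc, h1, h2, h3⟩ := ih (by omega)
    have hn : n' ≤ Qk.ncard := by
      have h4 : 1 ≤ 10 ^ (K - k) := Nat.one_le_pow _ _ (by norm_num)
      nlinarith
    obtain ⟨w, hw1, hw2⟩ := hno Qk hQ hn
    push Not at hw1
    obtain ⟨y, hy, hwy⟩ := hw1
    refine ⟨fun i => if i = k then w else v i, fun i => if i = k then y else q i,
      {x | x ∈ Qk ∧ G.Adj w x}, fun x hx => hQ hx.1, ?_, ?_, ?_, ?_⟩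
    · have h4 : K - k = (K - (k + 1)) + 1 := by omega
      rw [h4, pow_succ] at hc
      have h5 := hc.trans hw2
      nlinarith
    · intro i hi
      by_cases hik : i = k
      · simp only [hik, if_true]
        exact ⟨hQ hy, hwy⟩
      · simp only [hik, if_false]
        exact h1 i (by omega)
    · intro i j hij hj
      have hik : i ≠ k := by omega
      by_cases hjk : j = k
      · simp only [hik, hjk, if_true, if_false]
        exact h3 i (by omega) y hy
      · simp only [hik, hjk, if_false]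
        exact h2 i j hij (by omega)
    · intro i hi x hx
      by_cases hik : i = k
      · simp only [hik, if_true]
        exact hx.2
      · simp only [hik, if_false]
        exact h3 i (by omega) x hx.1

/-- a clique with `s` elements -/
theorem clq {V : Type} (G : SimpleGraph V) (s : ℕ) (hG : G.CliqueFree s) (u : ℕ → V)
    (hu : ∀ i j, i < j → j < s → G.Adj (u i) (u j)) : False := by
  classical
  refine hG ((Finset.range s).image u) ⟨?_, ?_⟩
  · intro x hx y hy hxy
    simp only [Finset.coe_image, Finset.coe_range, Set.mem_image, Set.mem_Iio] at hx hy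
    obtain ⟨i, hi, rfl⟩ := hx
    obtain ⟨j, hj, rfl⟩ := hy
    rcases lt_trichotomy i j with h | h | h
    · exact hu i j h hj
    · exact absurd (by rw [h]) hxy
    · exact (hu j i h hi).symm
  · rw [Finset.card_image_of_injOn, Finset.card_range]
    intro i hi j hj hij
    rw [Finset.coe_range, Set.mem_Iio] at hi hj
    rcases lt_trichotomy i j with h | h | h
    · exact absurd hij (hu i j h hj).ne
    · exact h
    · exact absurd hij.symm (hu j i h hi).ne

end aClAux

theorem aCl (hPA : S_PA) (hPB : S_PB) : S_Cl := by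
  classical
  intro hR s t n'
  obtain ⟨K, hK⟩ := hR (Bool × Bool) (max s (2 * t + 3 + 8))
  refine ⟨10 ^ K * (n' + 1), ?_⟩
  intro V _ G hFr hcf Q hst hQ
  by_contra hcon
  push Not at hcon
  have hno : ∀ Q' ⊆ Q, n' ≤ Q'.ncard → ∃ v, (¬ ∀ x ∈ Q', G.Adj v x) ∧
      Q'.ncard ≤ 10 * {x | x ∈ Q' ∧ G.Adj v x}.ncard := by
    intro Q' h1 h2
    obtain ⟨v, h3, h4⟩ := hcon Q' h1 h2
    refine ⟨v, ?_, h4⟩
    push Not
    exact h3
  obtain ⟨v, q, Qk, hQk, -, h1, h2, -⟩ := aClAux.claim G Q n' K hQ hno K le_rfl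
  obtain ⟨σ, c, hσ1, hσ2, hσ3⟩ := hK fun i j => (decide (G.Adj (v i) (v j)), decide (G.Adj (v j) (q i)))
  obtain ⟨ε, δ⟩ := c
  have hm1 : s ≤ max s (2 * t + 3 + 8) := le_max_left _ _
  have hm2 : 2 * t + 3 + 8 ≤ max s (2 * t + 3 + 8) := le_max_right _ _
  set m := max s (2 * t + 3 + 8) with hm
  have hε : ∀ k l, k < l → l < m → decide (G.Adj (v (σ k)) (v (σ l))) = ε := fun k l hkl hl =>
    congrArg Prod.fst (hσ3 k l hkl hl)
  have hδ : ∀ k l, k < l → l < m → decide (G.Adj (v (σ l)) (q (σ k))) = δ := fun k l hkl hl =>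
    congrArg Prod.snd (hσ3 k l hkl hl)
  have hvv : ∀ i < m, ∀ j < m, ¬ G.Adj (v (σ i)) (v (σ j)) := by
    have key : ∀ i j, i < j → j < m → ¬ G.Adj (v (σ i)) (v (σ j)) := by
      intro i j hij hj hadj
      have h3 := hε i j hij hj
      rw [decide_eq_true hadj] at h3
      refine aClAux.clq G s hcf (fun i => v (σ i)) fun k l hkl hl => ?_
      have h4 := hε k l hkl (by omega)
      rw [← h3] at h4
      exact of_decide_eq_true h4
    intro i hi j hj
    rcases lt_trichotomy i j with h | h | h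
    · exact key i j h hj
    · rw [h]
      exact G.loopless.irrefl _
    · exact fun h' => key j i h hi h'.symm
  have hqq : ∀ i < m, ∀ j < m, ¬ G.Adj (q (σ i)) (q (σ j)) := fun i hi j hj =>
    hst _ (h1 _ (hσ2 i hi)).1 _ (h1 _ (hσ2 j hj)).1
  have hvq : ∀ i j, i < j → j < m → G.Adj (v (σ i)) (q (σ j)) := fun i j hij hj =>
    h2 _ _ (hσ1 i j hij hj) (hσ2 j hj)
  have hvd : ∀ i < m, ¬ G.Adj (v (σ i)) (q (σ i)) := fun i hi => (h1 _ (hσ2 i hi)).2
  cases δ with
  | true =>
    refine hFr.2 (hPB t V G (fun i => v (σ i)) (fun i => q (σ i))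
      (fun i hi j hj => hvv i (by omega) j (by omega))
      (fun i hi j hj => hqq i (by omega) j (by omega)) ?_)
    intro i hi j hj
    rcases lt_trichotomy i j with h | h | h
    · exact iff_of_true (hvq i j h (by omega)) h.ne
    · subst h
      exact iff_of_false (hvd i (by omega)) fun h' => h' rfl
    · exact iff_of_true (of_decide_eq_true (hδ j i h (by omega))) h.ne'
  | false =>
    refine hFr.1 (hPA V G (fun i => q (σ i)) (fun i => v (σ i))
      (fun i hi j hj => hqq i (by omega) j (by omega))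
      (fun i hi j hj => hvv i (by omega) j (by omega)) ?_)
    intro i hi j hj
    rcases lt_trichotomy i j with h | h | h
    · exact iff_of_false (fun h' => of_decide_eq_false (hδ i j h (by omega)) h'.symm) (by omega)
    · subst h
      exact iff_of_false (fun h' => hvd i (by omega) h'.symm) (by omega)
    · exact iff_of_true (hvq j i h (by omega)).symm h

end Pool.Agent.MPd439b2.A0
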