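import Pool.Agent.Lib.MP_d439b2_co.A0.Spec

/-!
# MP_d439b2_co, A0, Cu: the majority cut
-/

set_option autoImplicit false

namespace Pool.Agent.MPd439b2.A0

open Pool.Agent.MPd439b2
open Pool.Agent.MPd439b2.Rep
open Pool.Agent.MPd439b2.F9

namespace aCuAux

/-- the three patterns give one of the excluded graphs -/
theorem noPat (h1 : S_PA) (h2 : S_PB) (h3 : S_PC) {V : Type} [Finite V] (G : SimpleGraph V)
    {t : ℕ} (hFr : Rep.Fr K401 (JP t) G) {Q : Set V} (hQ : 10 ≤ Q.ncard)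
    (hcl : ∀ v, (∀ x ∈ Q, G.Adj v x) ∨ 10 * {x | x ∈ Q ∧ G.Adj v x}.ncard < Q.ncard) :
    ¬ Has3s G {v | ∀ x ∈ Q, G.Adj v x} {v | ∀ x ∈ Q, G.Adj v x}ᶜ (2 * t + 20) := by
  rintro ⟨a, b, hpat, ha, hb⟩
  rcases hpat with hp | hp | hp
  · -- matching
    obtain ⟨hA, hB, hR⟩ := hp
    have hB0 := hB 0 (by omega)
    have hB1 := hB 1 (by omega)
    have hN0 := (hcl (b 0)).resolve_left hB0
    have hN1 := (hcl (b 1)).resolve_left hB1
    have hsub : Q ⊆ {x | x ∈ Q ∧ ¬ G.Adj (b 0) x ∧ ¬ G.Adj (b 1) x} ∪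
        ({x | x ∈ Q ∧ G.Adj (b 0) x} ∪ {x | x ∈ Q ∧ G.Adj (b 1) x}) := by
      intro x hx
      by_cases g0 : G.Adj (b 0) x
      · exact Or.inr (Or.inl ⟨hx, g0⟩)
      · by_cases g1 : G.Adj (b 1) x
        · exact Or.inr (Or.inr ⟨hx, g1⟩)
        · exact Or.inl ⟨hx, g0, g1⟩
    have hc1 := Set.ncard_le_ncard hsub (Set.toFinite _)
    have hc2 := Set.ncard_union_le {x | x ∈ Q ∧ ¬ G.Adj (b 0) x ∧ ¬ G.Adj (b 1) x}
      ({x | x ∈ Q ∧ G.Adj (b 0) x} ∪ {x | x ∈ Q ∧ G.Adj (b 1) x})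
    have hc3 := Set.ncard_union_le {x | x ∈ Q ∧ G.Adj (b 0) x} {x | x ∈ Q ∧ G.Adj (b 1) x}
    have h3' : 2 < {x | x ∈ Q ∧ ¬ G.Adj (b 0) x ∧ ¬ G.Adj (b 1) x}.ncard := by omega
    rw [Set.two_lt_ncard_iff (Set.toFinite _)] at h3'
    obtain ⟨x, y, z, hx, hy, hz, hxy, hxz, hyz⟩ := h3'
    let q : ℕ → V := fun i => if i = 0 then x else if i = 1 then y else z
    have q0 : q 0 = x := rfl
    have q1 : q 1 = y := rfl
    have q2 : q 2 = z := rfl
    have hq : ∀ j < 3, q j ∈ {x | x ∈ Q ∧ ¬ G.Adj (b 0) x ∧ ¬ G.Adj (b 1) x} := by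
      intro j hj
      have : j = 0 ∨ j = 1 ∨ j = 2 := by omega
      rcases this with rfl | rfl | rfl
      · exact hx
      · exact hy
      · exact hz
    refine hFr.1 (h3 V G a b q ?_ ?_ ?_ ?_ ?_ ?_)
    · intro h
      have e1 := (hR 2 (by omega) 2 (by omega)).mpr rfl
      rw [h] at e1
      have e2 := (hR 3 (by omega) 2 (by omega)).mp e1
      omega
    · intro i hi j hj hij
      have hi' : i = 0 ∨ i = 1 ∨ i = 2 := by omega
      have hj' : j = 0 ∨ j = 1 ∨ j = 2 := by omega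
      rcases hi' with rfl | rfl | rfl <;> rcases hj' with rfl | rfl | rfl
      · rfl
      · exact absurd hij hxy
      · exact absurd hij hxz
      · exact absurd hij.symm hxy
      · rfl
      · exact absurd hij hyz
      · exact absurd hij.symm hxz
      · exact absurd hij.symm hyz
      · rfl
    · intro i hi j hj
      exact hR i (by omega) j (by omega)
    · intro i hi j hj
      exact hA i (by omega) (q j) (hq j hj).1
    · intro i hi j hj
      have hi' : i = 0 ∨ i = 1 := by omega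
      rcases hi' with rfl | rfl
      · exact (hq j hj).2.1
      · exact (hq j hj).2.2
    · exact hb 0 (by omega) 1 (by omega)
  · -- co-matching
    obtain ⟨-, -, hR⟩ := hp
    refine hFr.2 (h2 t V G a b ?_ ?_ ?_)
    · exact fun i hi j hj => ha i (by omega) j (by omega)
    · exact fun i hi j hj => hb i (by omega) j (by omega)
    · exact fun i hi j hj => hR i (by omega) j (by omega)
  · -- half graph
    obtain ⟨-, -, hR⟩ := hp
    refine hFr.1 (h1 V G (fun i => b (2 * i)) (fun j => a (2 * j + 1)) ?_ ?_ ?_)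
    · exact fun i hi j hj => hb (2 * i) (by omega) (2 * j) (by omega)
    · exact fun i hi j hj => ha (2 * i + 1) (by omega) (2 * j + 1) (by omega)
    · intro i hi j hj
      change G.Adj (b (2 * i)) (a (2 * j + 1)) ↔ j < i
      rw [G.adj_comm, hR (2 * j + 1) (by omega) (2 * i) (by omega)]
      omega

end aCuAux

open aCuAux in
/-- **Cu.** -/
theorem aCu (h1 : S_PA) (h2 : S_PB) (h3 : S_PC) (h4 : S_Ra) (h5 : S_Cl) : S_Cu := by
  intro hRam s t
  obtain ⟨M, hM⟩ := h4 hRam s (2 * t + 20)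
  obtain ⟨c₁, hc₁⟩ := Rep.rk3 M
  refine ⟨c₁, fun β => ?_⟩
  obtain ⟨N, hN⟩ := h5 hRam s t (β c₁ + 10)
  refine ⟨N, fun c₀ hc₀ V _ G hFr hs hL Q hQ hQN => ?_⟩
  obtain ⟨Q', hQ'Q, hQ'n, hQ'c⟩ := hN V G hFr hs Q hQ hQN
  have hno : ¬ Has3 G {v | ∀ x ∈ Q', G.Adj v x} {v | ∀ x ∈ Q', G.Adj v x}ᶜ M := fun h =>
    noPat h1 h2 h3 G hFr (by omega) hQ'c (hM V G hs _ _ h)
  have hrk := hc₁ V G _ _ hno
  have hsub : {v | ∀ x ∈ Q, G.Adj v x} ⊆ {v | ∀ x ∈ Q', G.Adj v x} :=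
    fun v hv x hx => hv x (hQ'Q hx)
  have hQF : Q' ⊆ {v | ∀ x ∈ Q', G.Adj v x}ᶜ := fun x hx h => G.loopless.irrefl x (h x hx)
  rcases hL c₁ hc₀ {v | ∀ x ∈ Q', G.Adj v x} hrk with h | h
  · exact (Set.ncard_le_ncard hsub (Set.toFinite _)).trans h
  · have := Set.ncard_le_ncard hQF (Set.toFinite _)
    omega

end Pool.Agent.MPd439b2.A0
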