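import Pool.Agent.Lib.MP_d439b2_co.A0.Spec

/-!
# MP_d439b2_co, A0: `K4:0,1` is an induced minor of a grid (`S_Gr`)
-/

set_option autoImplicit false

namespace Pool.Agent.MPd439b2.A0

open Pool.Agent.MPd439b2 Pool.Agent.MPd439b2.Rep Pool.Agent.MPd439b2.F9

namespace aGrAux

/-- adjacency in the grid, computable -/
def gridb (n : ℕ) (u v : Fin n × Fin n) : Bool :=
  decide ((u.1 = v.1 ∧ (u.2.val = v.2.val + 1 ∨ v.2.val = u.2.val + 1)) ∨
    (u.2 = v.2 ∧ (u.1.val = v.1.val + 1 ∨ v.1.val = u.1.val + 1)))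

theorem gridb_iff {n : ℕ} (u v : Fin n × Fin n) : (grid n).Adj u v ↔ gridb n u v = true := by
  unfold gridb
  rw [decide_eq_true_iff]
  exact Iff.rfl

/-- adjacency in `K4:0,1`, computable -/
def kb : Fin 4 ⊕ Fin 2 → Fin 4 ⊕ Fin 2 → Bool
  | Sum.inl i, Sum.inl j => decide (i ≠ j)
  | Sum.inl i, Sum.inr q => decide (i.val = q.val)
  | Sum.inr q, Sum.inl i => decide (i.val = q.val)
  | Sum.inr _, Sum.inr _ => false

theorem mem_iff (i : Fin 4) (q : Fin 2) :
    i ∈ (![{0}, {1}] : Fin 2 → Set (Fin 4)) q ↔ i.val = q.val := by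
  fin_cases q
  · change i = 0 ↔ i.val = 0
    exact ⟨fun h => by rw [h]; rfl, fun h => Fin.ext h⟩
  · change i = 1 ↔ i.val = 1
    exact ⟨fun h => by rw [h]; rfl, fun h => Fin.ext h⟩

theorem kb_iff (u v : Fin 4 ⊕ Fin 2) : K401.Adj u v ↔ kb u v = true := by
  rcases u with i | q <;> rcases v with j | r
  · change i ≠ j ↔ decide (i ≠ j) = true
    rw [decide_eq_true_iff]
  · change i ∈ (![{0}, {1}] : Fin 2 → Set (Fin 4)) r ↔ decide (i.val = r.val) = true
    rw [decide_eq_true_iff, mem_iff]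
  · change j ∈ (![{0}, {1}] : Fin 2 → Set (Fin 4)) q ↔ decide (j.val = q.val) = true
    rw [decide_eq_true_iff, mem_iff]
  · change False ↔ false = true
    exact ⟨fun h => h.elim, fun h => absurd h (by decide)⟩

theorem conn_of_rank {V : Type} (G : SimpleGraph V) (B : Set V) (r : V) (hr : r ∈ B) (ρ : V → ℕ)
    (h : ∀ x ∈ B, x ≠ r → ∃ y ∈ B, ρ y < ρ x ∧ G.Adj x y) : Conn G B := by
  classical
  refine ⟨⟨r, hr⟩, ?_⟩
  intro C hC hne hne'
  by_cases hrC : r ∈ C
  · have hex : ∃ k, ∃ x ∈ B \ C, ρ x = k := by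
      by_contra hcon
      apply hne'
      refine Set.Subset.antisymm hC ?_
      intro x hx
      by_contra hxC
      exact hcon ⟨ρ x, x, ⟨hx, hxC⟩, rfl⟩
    obtain ⟨x, hx, hxk⟩ := Nat.find_spec hex
    have hxr : x ≠ r := fun h' => hx.2 (h' ▸ hrC)
    obtain ⟨y, hy, hyx, hadj⟩ := h x hx.1 hxr
    by_cases hyC : y ∈ C
    · exact ⟨y, hyC, x, hx, hadj.symm⟩
    · exact absurd ⟨y, ⟨hy, hyC⟩, rfl⟩ (Nat.find_min hex (show ρ y < Nat.find hex by omega))
  · have hex : ∃ k, ∃ x ∈ C, ρ x = k := by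
      obtain ⟨x, hx⟩ := hne
      exact ⟨ρ x, x, hx, rfl⟩
    obtain ⟨x, hx, hxk⟩ := Nat.find_spec hex
    have hxr : x ≠ r := fun h' => hrC (h' ▸ hx)
    obtain ⟨y, hy, hyx, hadj⟩ := h x (hC hx) hxr
    by_cases hyC : y ∈ C
    · exact absurd ⟨y, hyC, rfl⟩ (Nat.find_min hex (show ρ y < Nat.find hex by omega))
    · exact ⟨x, hx, y, ⟨hy, hyC⟩, hadj⟩

theorem inGrid_of {W : Type} {n : ℕ} (H : SimpleGraph W) (c : Fin n × Fin n → Option W)
    (r : W → Fin n × Fin n) (ρ : Fin n × Fin n → ℕ) (hr : ∀ w, c (r w) = some w)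
    (hc : ∀ x w, c x = some w → x ≠ r w → ∃ y, c y = some w ∧ ρ y < ρ x ∧ gridb n x y = true)
    (ha : ∀ w w', w ≠ w' → H.Adj w w' →
      ∃ x, c x = some w ∧ ∃ y, c y = some w' ∧ gridb n x y = true)
    (hb : ∀ x y, gridb n x y = true → ∀ w w', c x = some w → c y = some w' → w ≠ w' →
      H.Adj w w') : InGrid H := by
  refine ⟨n, ims_univ_iff.mp ⟨fun w => {x | c x = some w}, fun w => Set.subset_univ _, ?_, ?_,
    ?_⟩⟩
  · intro w
    refine conn_of_rank _ _ (r w) (hr w) ρ ?_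
    intro x hx hxr
    obtain ⟨y, hy, hyx, hadj⟩ := hc x w hx hxr
    exact ⟨y, hy, hyx, (gridb_iff x y).mpr hadj⟩
  · intro w w' hne
    rw [Set.disjoint_left]
    intro x hx hx'
    have h1 : c x = some w := hx
    have h2 : c x = some w' := hx'
    rw [h1] at h2
    exact hne (Option.some.inj h2)
  · intro w w' hne
    constructor
    · intro h
      obtain ⟨x, hx, y, hy, hadj⟩ := ha w w' hne h
      exact ⟨x, hx, y, hy, (gridb_iff x y).mpr hadj⟩
    · rintro ⟨x, hx, y, hy, hadj⟩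
      exact hb x y ((gridb_iff x y).mp hadj) w w' hx hy hne

/-- the model of `K4:0,1` in the grid -/
def cm (v : Fin 5 × Fin 5) : Option (Fin 4 ⊕ Fin 2) :=
  if v.1 = 0 then (if v.2 = 0 then some (Sum.inr 0) else none)
  else if v.1 = 1 then (if v.2.val < 3 then some (Sum.inl 0) else none)
  else if v.1 = 2 then
    (if v.2 = 0 then some (Sum.inl 2) else if v.2 = 1 then some (Sum.inl 3)
      else if v.2 = 2 then some (Sum.inl 0) else none)
  else if v.1 = 3 then (if v.2.val < 3 then some (Sum.inl 1) else none)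
  else (if v.2 = 0 then some (Sum.inr 1) else none)

/-- the roots of the branch sets -/
def rt : Fin 4 ⊕ Fin 2 → Fin 5 × Fin 5
  | Sum.inl i => if i = 0 then (1, 0) else if i = 1 then (3, 0) else if i = 2 then (2, 0)
      else (2, 1)
  | Sum.inr q => if q = 0 then (0, 0) else (4, 0)

end aGrAux

open aGrAux

theorem aGr : S_Gr := by
  refine inGrid_of K401 cm rt (fun v => 5 * v.1.val + v.2.val) (by decide) (by decide) ?_ ?_
  · intro w w' hne h
    rw [kb_iff] at h
    revert w w'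
    decide
  · intro x y h w w' hx hy hne
    rw [kb_iff]
    revert x y w w'
    decide

end Pool.Agent.MPd439b2.A0
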