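import Pool.Agent.Lib.MP_d439b2_co.A0.Spec

/-!
# MP_d439b2_co, A0: bounded width without a large model of a complete graph
-/

set_option autoImplicit false

namespace Pool.Agent.MPd439b2.A0

open Pool.Agent.MPd439b2
open Pool.Agent.MPd439b2.Rep
open Pool.Agent.MPd439b2.F9

theorem aKt (h1 : S_Gr) : S_Kt := by
  classical
  intro hGood hY8 r
  have hg : Good (⊤ : SimpleGraph (Fin r)) K401 := by
    refine ⟨Or.inr h1, Or.inl ⟨⟨Set.univ, ?_, ?_, ?_⟩, Or.inl ?_⟩⟩
    · intro u _ v _ huv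
      exact huv
    · intro u hu
      exact absurd (Set.mem_univ u) hu
    · intro v hv
      exact absurd (Set.mem_univ v) hv
    · intro u v huv
      exact huv
  obtain ⟨c, hc⟩ := hGood (Fin r) (Fin 4 ⊕ Fin 2) ⊤ K401 hg
  refine ⟨c, ?_⟩
  intro V _ G hK hM
  rcases isEmpty_or_nonempty V with hV | hV
  · rw [Set.univ_eq_empty_iff.2 hV]
    exact Lay.empty
  · refine hY8 V G c (hc V G (fun hI => hM ?_) (fun hI => hK (ims_univ_iff.2 hI)))
    obtain ⟨B, hB1, hB2, hB3⟩ := hI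
    refine ⟨fun i => if h : i < r then B ⟨i, h⟩ else ∅, ?_, ?_⟩
    · intro i hi
      rw [Finset.mem_range] at hi
      dsimp only
      rw [dif_pos hi]
      exact (conn_iff G _).2 (hB1 _)
    · intro i hi j hj hij
      rw [Finset.mem_range] at hi hj
      have hne : (⟨i, hi⟩ : Fin r) ≠ ⟨j, hj⟩ := fun h => hij (congrArg Fin.val h)
      dsimp only
      rw [dif_pos hi, dif_pos hj]
      exact ⟨hB2 _ _ hne, (hB3 _ _ hne).1 hne⟩

end Pool.Agent.MPd439b2.A0
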