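import Pool.Agent.Lib.MP_d439b2_co.A0.Spec

/-!
# MP_d439b2_co, A0/PA: a half graph of two stable sets contains `K4:0,1`
-/

set_option autoImplicit false

namespace Pool.Agent.MPd439b2.A0

open Pool.Agent.MPd439b2 Pool.Agent.MPd439b2.Rep Pool.Agent.MPd439b2.F9

theorem aPA (h1 : S_M1) : S_PA := by
  intro V G x y hx hy hxy
  have hxx : ∀ i < 8, ∀ j < 8, x i = x j → i = j := by
    intro i hi j hj h
    rcases Nat.lt_trichotomy i j with h' | h' | h'
    · have h2 := (hxy j hj i hi).2 h'
      rw [← h] at h2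
      have h3 := (hxy i hi i hi).1 h2
      omega
    · exact h'
    · have h2 := (hxy i hi j hj).2 h'
      rw [h] at h2
      have h3 := (hxy j hj j hj).1 h2
      omega
  have hyy : ∀ i < 8, ∀ j < 8, y i = y j → i = j := by
    intro i hi j hj h
    rcases Nat.lt_trichotomy i j with h' | h' | h'
    · have h2 := (hxy j hj i hi).2 h'
      rw [h] at h2
      have h3 := (hxy j hj j hj).1 h2
      omega
    · exact h'
    · have h2 := (hxy i hi j hj).2 h'
      rw [← h] at h2
      have h3 := (hxy i hi i hi).1 h2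
      omega
  have hne : ∀ i < 8, ∀ j < 8, 0 < i → x i ≠ y j := by
    intro i hi j hj h0 h
    have h2 := (hxy i hi 0 (by omega)).2 h0
    rw [h] at h2
    exact hy j hj 0 (by omega) h2
  have ad : ∀ i < 8, ∀ j < 8, j < i → G.Adj (x i) (y j) := fun i hi j hj h => (hxy i hi j hj).2 h
  have key1 : ∀ A B : Set V, (∀ a ∈ A, ∀ b ∈ B, a ≠ b) → Disjoint A B := by
    intro A B h
    rw [Set.disjoint_left]
    intro z hz hz'
    exact h z hz z hz' rfl
  have key2 : ∀ A B : Set V, (∀ a ∈ A, ∀ b ∈ B, ¬ G.Adj a b) → ¬ Tch G A B := by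
    rintro A B h ⟨a, ha, b, hb, hab⟩
    exact h a ha b hb hab
  refine h1 V G {y 1} {x 7} {x 5, y 3} {x 6, y 4} {x 2} {y 6} (Conn.singleton G _)
    (Conn.singleton G _) (Conn.pair (ad 5 (by omega) 3 (by omega) (by omega)))
    (Conn.pair (ad 6 (by omega) 4 (by omega) (by omega))) (Conn.singleton G _)
    (Conn.singleton G _) ?_ ?_ ?_ ?_ ?_ ?_ ?_ ?_ ?_ ?_ ?_ ?_ ?_ ?_ ?_
    ⟨y 1, by simp, x 7, by simp, (ad 7 (by omega) 1 (by omega) (by omega)).symm⟩
    ⟨y 1, by simp, x 5, by simp, (ad 5 (by omega) 1 (by omega) (by omega)).symm⟩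
    ⟨y 1, by simp, x 6, by simp, (ad 6 (by omega) 1 (by omega) (by omega)).symm⟩
    ⟨x 7, by simp, y 3, by simp, ad 7 (by omega) 3 (by omega) (by omega)⟩
    ⟨x 7, by simp, y 4, by simp, ad 7 (by omega) 4 (by omega) (by omega)⟩
    ⟨x 5, by simp, y 4, by simp, ad 5 (by omega) 4 (by omega) (by omega)⟩
    ⟨y 1, by simp, x 2, by simp, (ad 2 (by omega) 1 (by omega) (by omega)).symm⟩
    ⟨x 7, by simp, y 6, by simp, ad 7 (by omega) 6 (by omega) (by omega)⟩
    ?_ ?_ ?_ ?_ ?_ ?_ ?_
  all_goals first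
    | apply key1
    | apply key2
  all_goals
    intro a ha b hb h
    simp only [Set.mem_insert_iff, Set.mem_singleton_iff] at ha hb
    first
      | (rcases ha with rfl | rfl)
      | subst ha
  all_goals
    first
      | (rcases hb with rfl | rfl)
      | subst hb
  all_goals first
    | exact absurd (hxx _ (by omega) _ (by omega) h) (by omega)
    | exact absurd (hyy _ (by omega) _ (by omega) h) (by omega)
    | exact hne _ (by omega) _ (by omega) (by omega) h
    | exact hne _ (by omega) _ (by omega) (by omega) h.symm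
    | exact hx _ (by omega) _ (by omega) h
    | exact hy _ (by omega) _ (by omega) h
    | exact absurd ((hxy _ (by omega) _ (by omega)).1 h) (by omega)
    | exact absurd ((hxy _ (by omega) _ (by omega)).1 h.symm) (by omega)

end Pool.Agent.MPd439b2.A0
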