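import Pool.Agent.Lib.MP_d439b2_co.A0.Spec

/-!
# MP_d439b2_co, A0, PB: a co-matching of two stable sets contains `J_t`
-/

set_option autoImplicit false

namespace Pool.Agent.MPd439b2.A0

open Pool.Agent.MPd439b2 Pool.Agent.MPd439b2.Rep Pool.Agent.MPd439b2.F9

namespace aPBAux

/-- the leaves of the spider -/
abbrev Lf : Type := Σ i : Fin 3, Fin ((![0, 1, 1] : Fin 3 → ℕ) i)

/-- the first leaf -/
def l1 : Lf := ⟨1, ⟨0, by decide⟩⟩

/-- the second leaf -/
def l2 : Lf := ⟨2, ⟨0, by decide⟩⟩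

theorem lf : ∀ y : Lf, y = l1 ∨ y = l2 := by
  decide

theorem l12 : l1 ≠ l2 := by
  decide

/-- the index of the vertex `a` -/
def al {t : ℕ} : Option Lf ⊕ (Fin t × Bool) → ℕ
  | Sum.inl none => 1
  | Sum.inl (some y) => if y = l1 then 2 else 0
  | Sum.inr (q, false) => 2 * q.val + 3
  | Sum.inr (q, true) => 2 * q.val + 4

/-- the index of the vertex `w` -/
def om {t : ℕ} : Option Lf ⊕ (Fin t × Bool) → ℕ
  | Sum.inl none => 2
  | Sum.inl (some y) => if y = l1 then 0 else 1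
  | Sum.inr (q, false) => 2 * q.val + 4
  | Sum.inr (q, true) => 2 * q.val + 3

theorem al_l1 {t : ℕ} : al (t := t) (Sum.inl (some l1)) = 2 := by
  simp [al]

theorem al_l2 {t : ℕ} : al (t := t) (Sum.inl (some l2)) = 0 := by
  simp [al, Ne.symm l12]

theorem om_l1 {t : ℕ} : om (t := t) (Sum.inl (some l1)) = 0 := by
  simp [om]

theorem om_l2 {t : ℕ} : om (t := t) (Sum.inl (some l2)) = 1 := by
  simp [om, Ne.symm l12]

theorem al_f {t : ℕ} (q : Fin t) : al (Sum.inr (q, false)) = 2 * q.val + 3 := rfl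

theorem al_t {t : ℕ} (q : Fin t) : al (Sum.inr (q, true)) = 2 * q.val + 4 := rfl

theorem om_f {t : ℕ} (q : Fin t) : om (Sum.inr (q, false)) = 2 * q.val + 4 := rfl

theorem om_t {t : ℕ} (q : Fin t) : om (Sum.inr (q, true)) = 2 * q.val + 3 := rfl

theorem al_n {t : ℕ} : al (t := t) (Sum.inl none) = 1 := rfl

theorem om_n {t : ℕ} : om (t := t) (Sum.inl none) = 2 := rfl

/-- the vertices of `J_t` -/
theorem cas {t : ℕ} (P : Option Lf ⊕ (Fin t × Bool) → Prop) (h0 : P (Sum.inl none))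
    (h1 : P (Sum.inl (some l1))) (h2 : P (Sum.inl (some l2)))
    (h3 : ∀ q, P (Sum.inr (q, false))) (h4 : ∀ q, P (Sum.inr (q, true))) : ∀ u, P u := by
  rintro ((_ | y) | ⟨q, _ | _⟩)
  · exact h0
  · rcases lf y with h | h
    · rw [h]
      exact h1
    · rw [h]
      exact h2
  · exact h3 q
  · exact h4 q

theorem al_lt {t : ℕ} : ∀ u : Option Lf ⊕ (Fin t × Bool), al u < 2 * t + 3 := by
  refine cas _ ?_ ?_ ?_ (fun q => ?_) (fun q => ?_)
  · rw [al_n]; omega
  · rw [al_l1]; omega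
  · rw [al_l2]; omega
  · rw [al_f]; have := q.2; omega
  · rw [al_t]; have := q.2; omega

theorem om_lt {t : ℕ} : ∀ u : Option Lf ⊕ (Fin t × Bool), om u < 2 * t + 3 := by
  refine cas _ ?_ ?_ ?_ (fun q => ?_) (fun q => ?_)
  · rw [om_n]; omega
  · rw [om_l1]; omega
  · rw [om_l2]; omega
  · rw [om_f]; have := q.2; omega
  · rw [om_t]; have := q.2; omega

theorem ao {t : ℕ} : ∀ u : Option Lf ⊕ (Fin t × Bool), al u ≠ om u := by
  refine cas _ ?_ ?_ ?_ (fun q => ?_) (fun q => ?_)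
  · rw [al_n, om_n]; omega
  · rw [al_l1, om_l1]; omega
  · rw [al_l2, om_l2]; omega
  · rw [al_f, om_f]; omega
  · rw [al_t, om_t]; omega

theorem al_inj {t : ℕ} : ∀ u u' : Option Lf ⊕ (Fin t × Bool), al u ≠ 0 → al u = al u' → u = u' := by
  refine cas _ (cas _ ?_ ?_ ?_ (fun q => ?_) fun q => ?_) (cas _ ?_ ?_ ?_ (fun q => ?_) fun q => ?_)
    (cas _ ?_ ?_ ?_ (fun q => ?_) fun q => ?_)
    (fun r => cas _ ?_ ?_ ?_ (fun q => ?_) fun q => ?_)
    (fun r => cas _ ?_ ?_ ?_ (fun q => ?_) fun q => ?_) <;>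
  simp only [al_n, al_l1, al_l2, al_f, al_t] <;> intro h1 h2 <;>
  first
  | rfl
  | omega
  | (have h3 : r = q := Fin.ext (by omega)
     rw [h3])

theorem om_inj {t : ℕ} : ∀ u u' : Option Lf ⊕ (Fin t × Bool), om u ≠ 0 → om u = om u' → u = u' := by
  refine cas _ (cas _ ?_ ?_ ?_ (fun q => ?_) fun q => ?_) (cas _ ?_ ?_ ?_ (fun q => ?_) fun q => ?_)
    (cas _ ?_ ?_ ?_ (fun q => ?_) fun q => ?_)
    (fun r => cas _ ?_ ?_ ?_ (fun q => ?_) fun q => ?_)
    (fun r => cas _ ?_ ?_ ?_ (fun q => ?_) fun q => ?_) <;>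
  simp only [om_n, om_l1, om_l2, om_f, om_t] <;> intro h1 h2 <;>
  first
  | rfl
  | omega
  | (have h3 : r = q := Fin.ext (by omega)
     rw [h3])

theorem spid01 : (Spid ![0, 1, 1]).Adj none (some l1) := rfl

theorem spid02 : (Spid ![0, 1, 1]).Adj none (some l2) := rfl

theorem spid12 : ¬ (Spid ![0, 1, 1]).Adj (some l1) (some l2) := by
  intro h
  have h1 : (1 : Fin 3) = 2 := h.1
  exact absurd h1 (by decide)

/-- the condition for an edge between two branch sets -/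
def Ed {t : ℕ} (u u' : Option Lf ⊕ (Fin t × Bool)) : Prop :=
  (al u ≠ 0 ∧ om u' ≠ 0 ∧ al u ≠ om u') ∨ (al u' ≠ 0 ∧ om u ≠ 0 ∧ al u' ≠ om u)

theorem Ed.symm {t : ℕ} {u u' : Option Lf ⊕ (Fin t × Bool)} (h : Ed u u') : Ed u' u := by
  rcases h with h | h
  · exact Or.inr h
  · exact Or.inl h

theorem adj {t : ℕ} : ∀ u u' : Option Lf ⊕ (Fin t × Bool), u ≠ u' → ((JP t).Adj u u' ↔ Ed u u') := by
  have sy : ∀ u u' : Option Lf ⊕ (Fin t × Bool), (u ≠ u' → ((JP t).Adj u u' ↔ Ed u u')) →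
      (u' ≠ u → ((JP t).Adj u' u ↔ Ed u' u)) := by
    intro u u' h hne
    rw [SimpleGraph.adj_comm, h hne.symm]
    exact ⟨Ed.symm, Ed.symm⟩
  have g01 : ((Sum.inl none : Option Lf ⊕ (Fin t × Bool)) ≠ Sum.inl (some l1) →
      ((JP t).Adj (Sum.inl none) (Sum.inl (some l1)) ↔ Ed (t := t) (Sum.inl none) (Sum.inl (some l1)))) := by
    intro _
    refine iff_of_false (fun h => h.2 spid01) ?_
    unfold Ed
    rw [al_n, om_n, al_l1, om_l1]
    omega
  have g02 : ((Sum.inl none : Option Lf ⊕ (Fin t × Bool)) ≠ Sum.inl (some l2) →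
      ((JP t).Adj (Sum.inl none) (Sum.inl (some l2)) ↔ Ed (t := t) (Sum.inl none) (Sum.inl (some l2)))) := by
    intro _
    refine iff_of_false (fun h => h.2 spid02) ?_
    unfold Ed
    rw [al_n, om_n, al_l2, om_l2]
    omega
  have g12 : ((Sum.inl (some l1) : Option Lf ⊕ (Fin t × Bool)) ≠ Sum.inl (some l2) →
      ((JP t).Adj (Sum.inl (some l1)) (Sum.inl (some l2)) ↔
        Ed (t := t) (Sum.inl (some l1)) (Sum.inl (some l2)))) := by
    intro hne
    refine iff_of_true ⟨fun h => hne (congrArg Sum.inl h), spid12⟩ ?_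
    unfold Ed
    rw [al_l1, om_l1, al_l2, om_l2]
    omega
  have gir : ∀ (x : Option Lf) (z : Fin t × Bool), ((Sum.inl x : Option Lf ⊕ (Fin t × Bool)) ≠ Sum.inr z →
      ((JP t).Adj (Sum.inl x) (Sum.inr z) ↔ Ed (t := t) (Sum.inl x) (Sum.inr z))) := by
    intro x z _
    refine iff_of_true trivial ?_
    have hx : (al (t := t) (Sum.inl x) = 1 ∧ om (t := t) (Sum.inl x) = 2) ∨
        (al (t := t) (Sum.inl x) = 2 ∧ om (t := t) (Sum.inl x) = 0) ∨
        (al (t := t) (Sum.inl x) = 0 ∧ om (t := t) (Sum.inl x) = 1) := by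
      rcases x with _ | y
      · exact Or.inl ⟨rfl, rfl⟩
      · rcases lf y with h | h
        · rw [h]
          exact Or.inr (Or.inl ⟨al_l1, om_l1⟩)
        · rw [h]
          exact Or.inr (Or.inr ⟨al_l2, om_l2⟩)
    have hz : 3 ≤ al (t := t) (Sum.inr z) ∧ 3 ≤ om (t := t) (Sum.inr z) := by
      obtain ⟨q, _ | _⟩ := z
      · rw [al_f, om_f]
        omega
      · rw [al_t, om_t]
        omega
    unfold Ed
    omega
  have grr : ∀ (z z' : Fin t × Bool), ((Sum.inr z : Option Lf ⊕ (Fin t × Bool)) ≠ Sum.inr z' →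
      ((JP t).Adj (Sum.inr z) (Sum.inr z') ↔ Ed (t := t) (Sum.inr z) (Sum.inr z'))) := by
    intro z z' hne
    have h0 : (JP t).Adj (Sum.inr z) (Sum.inr z') ↔ z.1 ≠ z'.1 := Iff.rfl
    rw [h0, Ne, Fin.ext_iff]
    unfold Ed
    obtain ⟨q, _ | _⟩ := z <;> obtain ⟨q', _ | _⟩ := z' <;>
    simp only [al_f, al_t, om_f, om_t] <;>
    first
    | omega
    | (have hq : q.val ≠ q'.val := by
         intro h
         apply hne
         rw [Fin.ext h]
       omega)
  have nn : ∀ (u : Option Lf ⊕ (Fin t × Bool)), (u ≠ u → ((JP t).Adj u u ↔ Ed u u)) :=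
    fun u h => absurd rfl h
  refine cas _ (cas _ (nn _) g01 g02 (fun q => gir _ _) fun q => gir _ _)
    (cas _ (sy _ _ g01) (nn _) g12 (fun q => gir _ _) fun q => gir _ _)
    (cas _ (sy _ _ g02) (sy _ _ g12) (nn _) (fun q => gir _ _) fun q => gir _ _)
    (fun r => cas _ (sy _ _ (gir _ _)) (sy _ _ (gir _ _)) (sy _ _ (gir _ _)) (fun q => grr _ _)
      fun q => grr _ _)
    (fun r => cas _ (sy _ _ (gir _ _)) (sy _ _ (gir _ _)) (sy _ _ (gir _ _)) (fun q => grr _ _)
      fun q => grr _ _)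

/-- the branch sets -/
def Br {V : Type} (a w : ℕ → V) {t : ℕ} (u : Option Lf ⊕ (Fin t × Bool)) : Set V :=
  {v | (al u ≠ 0 ∧ v = a (al u)) ∨ (om u ≠ 0 ∧ v = w (om u))}

end aPBAux

open aPBAux in
theorem aPB : S_PB := by
  intro t V G a w ha hw haw
  have ne1 : ∀ i < 2 * t + 3, ∀ j < 2 * t + 3, a i = a j → i = j := by
    intro i hi j hj hij
    by_contra hne
    have h1 := (haw i hi j hj).2 hne
    rw [hij] at h1
    exact (haw j hj j hj).1 h1 rfl
  have ne2 : ∀ i < 2 * t + 3, ∀ j < 2 * t + 3, w i = w j → i = j := by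
    intro i hi j hj hij
    by_contra hne
    have h1 := (haw i hi j hj).2 hne
    rw [← hij] at h1
    exact (haw i hi i hi).1 h1 rfl
  have ne3 : ∀ i < 2 * t + 3, ∀ j < 2 * t + 3, a i ≠ w j := by
    intro i hi j hj hij
    obtain ⟨l, hl, hil⟩ : ∃ l < 2 * t + 3, i ≠ l := by
      by_cases h0 : i = 0
      · exact ⟨1, by omega, by omega⟩
      · exact ⟨0, by omega, h0⟩
    have h1 := (haw i hi l hl).2 hil
    rw [hij] at h1
    exact hw j hj l hl h1
  refine ⟨Br a w, fun _ => Set.subset_univ _, ?_, ?_, ?_⟩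
  · intro u
    by_cases h1 : al u = 0
    · by_cases h2 : om u = 0
      · exact absurd (h1.trans h2.symm) (ao u)
      · have h3 : Br a w u = {w (om u)} := by
          ext v
          constructor
          · rintro (h | h)
            · exact absurd h1 h.1
            · exact h.2
          · intro h
            exact Or.inr ⟨h2, h⟩
        rw [h3]
        exact Conn.singleton G _
    · by_cases h2 : om u = 0
      · have h3 : Br a w u = {a (al u)} := by
          ext v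
          constructor
          · rintro (h | h)
            · exact h.2
            · exact absurd h2 h.1
          · intro h
            exact Or.inl ⟨h1, h⟩
        rw [h3]
        exact Conn.singleton G _
      · have h3 : Br a w u = {a (al u), w (om u)} := by
          ext v
          constructor
          · rintro (h | h)
            · exact Or.inl h.2
            · exact Or.inr h.2
          · rintro (h | h)
            · exact Or.inl ⟨h1, h⟩
            · exact Or.inr ⟨h2, h⟩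
        rw [h3]
        exact Conn.pair ((haw _ (al_lt u) _ (om_lt u)).2 (ao u))
  · intro u u' hne
    rw [Set.disjoint_left]
    rintro v (⟨h1, h2⟩ | ⟨h1, h2⟩) (⟨h3, h4⟩ | ⟨h3, h4⟩)
    · exact hne (al_inj u u' h1 (ne1 _ (al_lt u) _ (al_lt u') (h2.symm.trans h4)))
    · exact ne3 _ (al_lt u) _ (om_lt u') (h2.symm.trans h4)
    · exact ne3 _ (al_lt u') _ (om_lt u) (h4.symm.trans h2)
    · exact hne (om_inj u u' h1 (ne2 _ (om_lt u) _ (om_lt u') (h2.symm.trans h4)))
  · intro u u' hne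
    rw [adj u u' hne]
    constructor
    · rintro (⟨h1, h2, h3⟩ | ⟨h1, h2, h3⟩)
      · exact ⟨a (al u), Or.inl ⟨h1, rfl⟩, w (om u'), Or.inr ⟨h2, rfl⟩,
          (haw _ (al_lt u) _ (om_lt u')).2 h3⟩
      · exact ⟨w (om u), Or.inr ⟨h2, rfl⟩, a (al u'), Or.inl ⟨h1, rfl⟩,
          ((haw _ (al_lt u') _ (om_lt u)).2 h3).symm⟩
    · rintro ⟨x, hx, y, hy, hxy⟩
      rcases hx with ⟨h1, rfl⟩ | ⟨h1, rfl⟩ <;> rcases hy with ⟨h2, rfl⟩ | ⟨h2, rfl⟩
      · exact absurd hxy (ha _ (al_lt u) _ (al_lt u'))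
      · exact Or.inl ⟨h1, h2, (haw _ (al_lt u) _ (om_lt u')).1 hxy⟩
      · exact Or.inr ⟨h2, h1, (haw _ (al_lt u') _ (om_lt u)).1 hxy.symm⟩
      · exact absurd hxy (hw _ (om_lt u) _ (om_lt u'))

end Pool.Agent.MPd439b2.A0
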