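import Pool.Agent.Lib.MP_d439b2_co.A0.Spec

/-!
# MP_d439b2_co, A0: a matching and three vertices complete to one side (helper18)
-/

set_option autoImplicit false

namespace Pool.Agent.MPd439b2.A0

open Pool.Agent.MPd439b2
open Pool.Agent.MPd439b2.Rep
open Pool.Agent.MPd439b2.F9

theorem aPC (h1 : S_M1) : S_PC := by
  intro V G f g q h23 hq hfg hfq hgq hgg
  have nfg : ∀ i < 4, ∀ j < 2, f i ≠ g j := by
    intro i hi j hj he
    exact hgq j hj 0 (by norm_num) (he ▸ hfq i hi 0 (by norm_num))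
  have nfq : ∀ i < 4, ∀ j < 3, f i ≠ q j := fun i hi j hj => (hfq i hi j hj).ne
  have ngq : ∀ j < 2, ∀ k < 3, g j ≠ q k := by
    intro j hj k hk he
    have h2 := hfq 2 (by norm_num) k hk
    rw [← he, hfg 2 (by norm_num) j hj] at h2
    omega
  have nff : ∀ i < 2, ∀ j < 4, i ≠ j → f i ≠ f j := by
    intro i hi j hj hij he
    have h2 := (hfg i (by omega) i hi).2 rfl
    rw [he, hfg j hj i hi] at h2
    omega
  have a1 : ∀ i < 4, ∀ j < 2, i ≠ j → ¬ G.Adj (f i) (g j) := fun i hi j hj hij h =>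
    hij ((hfg i hi j hj).1 h)
  have a2 : ∀ j < 2, ∀ k < 3, ¬ G.Adj (q k) (g j) := fun j hj k hk h => hgq j hj k hk h.symm
  have hgne : g 0 ≠ g 1 := by
    intro he
    have h2 := (hfg 0 (by norm_num) 0 (by norm_num)).2 rfl
    rw [he, hfg 0 (by norm_num) 1 (by norm_num)] at h2
    omega
  have f01 := nff 0 (by norm_num) 1 (by norm_num) (by norm_num)
  have f02 := nff 0 (by norm_num) 2 (by norm_num) (by norm_num)
  have f03 := nff 0 (by norm_num) 3 (by norm_num) (by norm_num)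
  have f12 := nff 1 (by norm_num) 2 (by norm_num) (by norm_num)
  have f13 := nff 1 (by norm_num) 3 (by norm_num) (by norm_num)
  have q01 : q 0 ≠ q 1 := fun he => by
    have := hq 0 (by norm_num) 1 (by norm_num) he
    omega
  have q02 : q 0 ≠ q 2 := fun he => by
    have := hq 0 (by norm_num) 2 (by norm_num) he
    omega
  have q12 : q 1 ≠ q 2 := fun he => by
    have := hq 1 (by norm_num) 2 (by norm_num) he
    omega
  have dis : ∀ (a b c d : V), a ≠ c → a ≠ d → b ≠ c → b ≠ d →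
      Disjoint ({a, b} : Set V) {c, d} := by
    intro a b c d h2 h3 h4 h5
    rw [Set.disjoint_left]
    rintro z (rfl | rfl) (h | h)
    · exact h2 h
    · exact h3 h
    · exact h4 h
    · exact h5 h
  have dis1 : ∀ (a b c : V), a ≠ c → b ≠ c → Disjoint ({a, b} : Set V) {c} := by
    intro a b c h2 h3
    rw [Set.disjoint_left]
    rintro z (rfl | rfl) h
    · exact h2 h
    · exact h3 h
  have dis2 : ∀ (a b c : V), c ≠ a → c ≠ b → Disjoint ({c} : Set V) {a, b} := by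
    intro a b c h2 h3
    exact (dis1 a b c h2.symm h3.symm).symm
  have tn : ∀ (a b c : V), ¬ G.Adj a c → ¬ G.Adj b c → ¬ Tch G ({a, b} : Set V) {c} := by
    rintro a b c h2 h3 ⟨z, (rfl | rfl), w, hw, h⟩
    · exact h2 (Set.mem_singleton_iff.1 hw ▸ h)
    · exact h3 (Set.mem_singleton_iff.1 hw ▸ h)
  have tp : ∀ (A B : Set V) (a b : V), a ∈ A → b ∈ B → G.Adj a b → Tch G A B :=
    fun A B a b ha hb h => ⟨a, ha, b, hb, h⟩
  have hb : ∀ i < 4, ∀ j < 3, Conn G ({f i, q j} : Set V) := fun i hi j hj =>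
    Conn.pair (hfq i hi j hj)
  refine h1 V G {f 0} {f 1, q 0} {f 2, q 1} {f 3, q 2} {g 0} {g 1} (Conn.singleton G _)
    (hb 1 (by norm_num) 0 (by norm_num)) (hb 2 (by norm_num) 1 (by norm_num))
    (hb 3 (by norm_num) 2 (by norm_num)) (Conn.singleton G _) (Conn.singleton G _)
    (dis2 _ _ _ f01 (nfq 0 (by norm_num) 0 (by norm_num)))
    (dis2 _ _ _ f02 (nfq 0 (by norm_num) 1 (by norm_num)))
    (dis2 _ _ _ f03 (nfq 0 (by norm_num) 2 (by norm_num)))
    (Set.disjoint_singleton.2 (nfg 0 (by norm_num) 0 (by norm_num)))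
    (Set.disjoint_singleton.2 (nfg 0 (by norm_num) 1 (by norm_num)))
    (dis _ _ _ _ f12 (nfq 1 (by norm_num) 1 (by norm_num))
      (nfq 2 (by norm_num) 0 (by norm_num)).symm q01)
    (dis _ _ _ _ f13 (nfq 1 (by norm_num) 2 (by norm_num))
      (nfq 3 (by norm_num) 0 (by norm_num)).symm q02)
    (dis1 _ _ _ (nfg 1 (by norm_num) 0 (by norm_num)) (ngq 0 (by norm_num) 0 (by norm_num)).symm)
    (dis1 _ _ _ (nfg 1 (by norm_num) 1 (by norm_num)) (ngq 1 (by norm_num) 0 (by norm_num)).symm)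
    (dis _ _ _ _ h23 (nfq 2 (by norm_num) 2 (by norm_num))
      (nfq 3 (by norm_num) 1 (by norm_num)).symm q12)
    (dis1 _ _ _ (nfg 2 (by norm_num) 0 (by norm_num)) (ngq 0 (by norm_num) 1 (by norm_num)).symm)
    (dis1 _ _ _ (nfg 2 (by norm_num) 1 (by norm_num)) (ngq 1 (by norm_num) 1 (by norm_num)).symm)
    (dis1 _ _ _ (nfg 3 (by norm_num) 0 (by norm_num)) (ngq 0 (by norm_num) 2 (by norm_num)).symm)
    (dis1 _ _ _ (nfg 3 (by norm_num) 1 (by norm_num)) (ngq 1 (by norm_num) 2 (by norm_num)).symm)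
    (Set.disjoint_singleton.2 hgne)
    (tp _ _ (f 0) (q 0) (by simp) (by simp) (hfq 0 (by norm_num) 0 (by norm_num)))
    (tp _ _ (f 0) (q 1) (by simp) (by simp) (hfq 0 (by norm_num) 1 (by norm_num)))
    (tp _ _ (f 0) (q 2) (by simp) (by simp) (hfq 0 (by norm_num) 2 (by norm_num)))
    (tp _ _ (f 1) (q 1) (by simp) (by simp) (hfq 1 (by norm_num) 1 (by norm_num)))
    (tp _ _ (f 1) (q 2) (by simp) (by simp) (hfq 1 (by norm_num) 2 (by norm_num)))
    (tp _ _ (f 2) (q 2) (by simp) (by simp) (hfq 2 (by norm_num) 2 (by norm_num)))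
    (tp _ _ (f 0) (g 0) (by simp) (by simp) ((hfg 0 (by norm_num) 0 (by norm_num)).2 rfl))
    (tp _ _ (f 1) (g 1) (by simp) (by simp) ((hfg 1 (by norm_num) 1 (by norm_num)).2 rfl))
    ?_ (tn _ _ _ (a1 1 (by norm_num) 0 (by norm_num) (by norm_num))
      (a2 0 (by norm_num) 0 (by norm_num)))
    (tn _ _ _ (a1 2 (by norm_num) 0 (by norm_num) (by norm_num))
      (a2 0 (by norm_num) 1 (by norm_num)))
    (tn _ _ _ (a1 2 (by norm_num) 1 (by norm_num) (by norm_num))
      (a2 1 (by norm_num) 1 (by norm_num)))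
    (tn _ _ _ (a1 3 (by norm_num) 0 (by norm_num) (by norm_num))
      (a2 0 (by norm_num) 2 (by norm_num)))
    (tn _ _ _ (a1 3 (by norm_num) 1 (by norm_num) (by norm_num))
      (a2 1 (by norm_num) 2 (by norm_num))) ?_
  · rintro ⟨z, rfl, w, rfl, h⟩
    exact a1 0 (by norm_num) 1 (by norm_num) (by norm_num) h
  · rintro ⟨z, rfl, w, rfl, h⟩
    exact hgg h

end Pool.Agent.MPd439b2.A0
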