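import Pool.Agent.Lib.MP_d439b2_co.A0.Spec

/-!
# MP_d439b2_co, A0, Ra: patterns with stable sides
-/

set_option autoImplicit false

namespace Pool.Agent.MPd439b2.A0

open Pool.Agent.MPd439b2 Pool.Agent.MPd439b2.Rep Pool.Agent.MPd439b2.F9

namespace aRaAux

/-- a sequence of pairwise adjacent vertices is a clique -/
theorem clq {V : Type} {G : SimpleGraph V} {s : ℕ} (hcf : G.CliqueFree s) (f : ℕ → V)
    (h : ∀ i j, i < j → j < s → G.Adj (f i) (f j)) : False := by
  classical
  have inj : ∀ i < s, ∀ j < s, f i = f j → i = j := by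
    intro i hi j hj hij
    rcases Nat.lt_trichotomy i j with g | g | g
    · exact absurd hij (h i j g hj).ne
    · exact g
    · exact absurd hij.symm (h j i g hi).ne
  refine hcf ((Finset.range s).image f) ?_
  rw [SimpleGraph.isNClique_iff]
  constructor
  · intro x hx y hy hxy
    rw [Finset.coe_image, Set.mem_image] at hx hy
    obtain ⟨i, hi, rfl⟩ := hx
    obtain ⟨j, hj, rfl⟩ := hy
    have hi' : i < s := Finset.mem_range.1 (Finset.mem_coe.1 hi)
    have hj' : j < s := Finset.mem_range.1 (Finset.mem_coe.1 hj)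
    rcases Nat.lt_trichotomy i j with g | g | g
    · exact h i j g hj'
    · exact absurd (congrArg f g) hxy
    · exact (h j i g hi').symm
  · rw [Finset.card_image_of_injOn, Finset.card_range]
    intro i hi j hj hij
    exact inj i (Finset.mem_range.1 (Finset.mem_coe.1 hi)) j
      (Finset.mem_range.1 (Finset.mem_coe.1 hj)) hij

/-- stable subsequences -/
theorem stb {V : Type} {G : SimpleGraph V} {s m : ℕ} (hcf : G.CliqueFree s) (f : ℕ → V) (c : Prop)
    (h : ∀ i j, i < j → j < max m s → (G.Adj (f i) (f j) ↔ c)) :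
    ∀ i < m, ∀ j < m, ¬ G.Adj (f i) (f j) := by
  have hs := le_max_right m s
  have hm := le_max_left m s
  have hc : ¬ c := fun hc => clq hcf f fun i j hij hj => (h i j hij (by omega)).2 hc
  intro i hi j hj hij
  rcases Nat.lt_trichotomy i j with g | g | g
  · exact hc ((h i j g (by omega)).1 hij)
  · subst g
    exact hij.ne rfl
  · exact hc ((h j i g (by omega)).1 hij.symm)

end aRaAux

theorem aRa : S_Ra := by
  intro hR s m
  obtain ⟨M, hM⟩ := hR (Prop × Prop) (max m s)
  refine ⟨M, fun V G hcf A B h3 => ?_⟩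
  obtain ⟨a, b, h⟩ := h3
  obtain ⟨σ, c, hσ1, hσ2, hσ3⟩ := hM (fun i j => (G.Adj (a i) (a j), G.Adj (b i) (b j)))
  have hs := le_max_right m s
  have hm := le_max_left m s
  have hle : ∀ i < m, ∀ j < m, (σ i ≤ σ j ↔ i ≤ j) := by
    intro i hi j hj
    constructor
    · intro g
      by_contra hcon
      have g2 := hσ1 j i (by omega) (by omega)
      omega
    · intro g
      rcases Nat.lt_or_eq_of_le g with g | g
      · exact (hσ1 i j g (by omega)).le
      · rw [g]
  have heq : ∀ i < m, ∀ j < m, (σ i = σ j ↔ i = j) := by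
    intro i hi j hj
    constructor
    · intro g
      exact le_antisymm ((hle i hi j hj).1 g.le) ((hle j hj i hi).1 g.ge)
    · intro g
      rw [g]
  have key : ∀ R : ℕ → ℕ → Prop, BP G A B M a b R → (∀ i < m, ∀ j < m, (R (σ i) (σ j) ↔ R i j)) →
      BP G A B m (fun i => a (σ i)) (fun i => b (σ i)) R := by
    intro R hBP hRR
    refine ⟨fun i hi => hBP.1 _ (hσ2 i (by omega)), fun i hi => hBP.2.1 _ (hσ2 i (by omega)), ?_⟩
    intro i hi j hj
    rw [hBP.2.2 _ (hσ2 i (by omega)) _ (hσ2 j (by omega))]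
    exact hRR i hi j hj
  refine ⟨fun i => a (σ i), fun i => b (σ i), ?_, ?_, ?_⟩
  · rcases h with h | h | h
    · exact Or.inl (key _ h heq)
    · exact Or.inr (Or.inl (key _ h fun i hi j hj => not_congr (heq i hi j hj)))
    · exact Or.inr (Or.inr (key _ h hle))
  · exact aRaAux.stb (m := m) hcf (fun i => a (σ i)) c.1
      fun i j hij hj => iff_of_eq (congrArg Prod.fst (hσ3 i j hij hj))
  · exact aRaAux.stb (m := m) hcf (fun i => b (σ i)) c.2
      fun i j hij hj => iff_of_eq (congrArg Prod.snd (hσ3 i j hij hj))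

end Pool.Agent.MPd439b2.A0
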