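import Pool.Agent.Lib.MP_d439b2_co.A0.Spec

/-!
# MP_d439b2_co, A0, Rs: large sets contain large stable sets
-/

set_option autoImplicit false

namespace Pool.Agent.MPd439b2.A0

open Pool.Agent.MPd439b2 Pool.Agent.MPd439b2.Rep Pool.Agent.MPd439b2.F9

namespace aRsAux

/-- a sequence of pairwise adjacent vertices is a clique -/
theorem clq {V : Type} {G : SimpleGraph V} {s : ℕ} (hcf : G.CliqueFree s) (f : ℕ → V)
    (h : ∀ i j, i < j → j < s → G.Adj (f i) (f j)) : False := by
  classical
  have inj : ∀ i < s, ∀ j < s, f i = f j → i = j := by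
    intro i hi j hj hij
    rcases Nat.lt_trichotomy i j with g | g | g
    · exact absurd hij (h i j g hj).ne
    · exact g
    · exact absurd hij.symm (h j i g hi).ne
  refine hcf ((Finset.range s).image f) ?_
  rw [SimpleGraph.isNClique_iff]
  constructor
  · intro x hx y hy hxy
    rw [Finset.coe_image, Set.mem_image] at hx hy
    obtain ⟨i, hi, rfl⟩ := hx
    obtain ⟨j, hj, rfl⟩ := hy
    have hi' : i < s := Finset.mem_range.1 (Finset.mem_coe.1 hi)
    have hj' : j < s := Finset.mem_range.1 (Finset.mem_coe.1 hj)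
    rcases Nat.lt_trichotomy i j with g | g | g
    · exact h i j g hj'
    · exact absurd (congrArg f g) hxy
    · exact (h j i g hi').symm
  · rw [Finset.card_image_of_injOn, Finset.card_range]
    intro i hi j hj hij
    exact inj i (Finset.mem_range.1 (Finset.mem_coe.1 hi)) j
      (Finset.mem_range.1 (Finset.mem_coe.1 hj)) hij

/-- enumerate a set -/
theorem enum {V : Type} [Finite V] (X : Set V) (M : ℕ) (hM : M ≤ X.ncard) (v0 : V) :
    ∃ f : ℕ → V, (∀ i < M, f i ∈ X) ∧ ∀ i < M, ∀ j < M, f i = f j → i = j := by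
  classical
  have hfin : X.Finite := Set.toFinite X
  have hc : X.ncard = hfin.toFinset.card := Set.ncard_eq_toFinset_card X hfin
  let e := hfin.toFinset.equivFin
  refine ⟨fun i => if h : i < hfin.toFinset.card then (e.symm ⟨i, h⟩ : V) else v0, ?_, ?_⟩
  · intro i hi
    have h : i < hfin.toFinset.card := by omega
    simp only [dif_pos h]
    exact hfin.mem_toFinset.1 (e.symm ⟨i, h⟩).2
  · intro i hi j hj hij
    have h : i < hfin.toFinset.card := by omega
    have h' : j < hfin.toFinset.card := by omega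
    simp only [dif_pos h, dif_pos h'] at hij
    have h2 := e.symm.injective (Subtype.ext hij)
    exact Fin.mk.inj_iff.1 h2

end aRsAux

theorem aRs : S_Rs := by
  classical
  intro hR s N
  obtain ⟨M, hM⟩ := hR Prop (max N s)
  refine ⟨M + 1, fun V _ G hcf X hX => ?_⟩
  have hs := le_max_right N s
  have hN := le_max_left N s
  obtain ⟨v0, -⟩ : X.Nonempty := by
    rw [← Set.ncard_pos (Set.toFinite X)]
    omega
  obtain ⟨f, hf1, hf2⟩ := aRsAux.enum X M (by omega) v0
  obtain ⟨σ, c, hσ1, hσ2, hσ3⟩ := hM (fun i j => G.Adj (f i) (f j))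
  have hc : ¬ c := fun hc => aRsAux.clq hcf (fun i => f (σ i)) fun i j hij hj => by
    have h := hσ3 i j hij (by omega)
    exact (iff_of_eq h).2 hc
  have inj : ∀ i < N, ∀ j < N, f (σ i) = f (σ j) → i = j := by
    intro i hi j hj hij
    have h1 := hf2 _ (hσ2 i (by omega)) _ (hσ2 j (by omega)) hij
    rcases Nat.lt_trichotomy i j with g | g | g
    · exact absurd h1 (hσ1 i j g (by omega)).ne
    · exact g
    · exact absurd h1.symm (hσ1 j i g (by omega)).ne
  refine ⟨(((Finset.range N).image fun i => f (σ i) : Finset V) : Set V), ?_, ?_, ?_⟩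
  · intro x hx
    rw [Finset.mem_coe, Finset.mem_image] at hx
    obtain ⟨i, hi, rfl⟩ := hx
    rw [Finset.mem_range] at hi
    exact hf1 _ (hσ2 i (by omega))
  · intro x hx y hy hxy
    rw [Finset.mem_coe, Finset.mem_image] at hx hy
    obtain ⟨i, hi, rfl⟩ := hx
    obtain ⟨j, hj, rfl⟩ := hy
    rw [Finset.mem_range] at hi hj
    rcases Nat.lt_trichotomy i j with g | g | g
    · exact hc ((iff_of_eq (hσ3 i j g (by omega))).1 hxy)
    · subst g
      exact hxy.ne rfl
    · exact hc ((iff_of_eq (hσ3 j i g (by omega))).1 hxy.symm)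
  · rw [Set.ncard_coe_finset, Finset.card_image_of_injOn, Finset.card_range]
    intro i hi j hj hij
    exact inj i (Finset.mem_range.1 (Finset.mem_coe.1 hi)) j
      (Finset.mem_range.1 (Finset.mem_coe.1 hj)) hij

end Pool.Agent.MPd439b2.A0
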