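import Pool.Agent.Lib.MP_d439b2_co.A0.M1
import Pool.Agent.Lib.MP_d439b2_co.A0.PA
import Pool.Agent.Lib.MP_d439b2_co.A0.PB
import Pool.Agent.Lib.MP_d439b2_co.A0.PC
import Pool.Agent.Lib.MP_d439b2_co.A0.Ra
import Pool.Agent.Lib.MP_d439b2_co.A0.Rs
import Pool.Agent.Lib.MP_d439b2_co.A0.Cl
import Pool.Agent.Lib.MP_d439b2_co.A0.Cu
import Pool.Agent.Lib.MP_d439b2_co.A0.Gr
import Pool.Agent.Lib.MP_d439b2_co.A0.Kt
import Pool.Agent.Lib.MP_d439b2_co.A0.Q0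
import Pool.Agent.Lib.MP_d439b2_co.A0.A0
import Pool.Agent.Lib.MP_d439b2_co.F9.Final
import Pool.Agent.Lib.MP_d439b2_co.KS.Final
import Pool.Agent.Lib.MP_d439b2_co.W.RamC

/-!
# MP_d439b2_co, A0: assembly
-/

set_option autoImplicit false

namespace Pool.Agent.MPd439b2.A0

open Pool.Agent.MPd439b2

theorem paF : S_PA := aPA aM1

theorem pcF : S_PC := aPC aM1

theorem clF : S_Cl := aCl paF aPB

theorem cuF : S_Cu := aCu paF aPB pcF aRa clF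

/-- **Theorem A0.** -/
theorem a0F : S_A0 := aA0 W.ramC aRs cuF aQ0 KS.kU9 KS.z0 F9.i1 (aKt aGr) F9.goodF KS.pY8

end Pool.Agent.MPd439b2.A0
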