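import Pool.Agent.Lib.MP_d439b2_co.A0.Spec

/-!
# MP_d439b2_co, A0, M1: a builder for models of `K4:0,1` (helper91)
-/

set_option autoImplicit false

namespace Pool.Agent.MPd439b2.A0

open Pool.Agent.MPd439b2
open Pool.Agent.MPd439b2.Rep
open Pool.Agent.MPd439b2.F9

namespace aM1Aux

theorem ll (i j : Fin 4) : K401.Adj (Sum.inl i) (Sum.inl j) ↔ i ≠ j := Iff.rfl

theorem l0 (i : Fin 4) : K401.Adj (Sum.inl i) (Sum.inr 0) ↔ i = 0 := Iff.rfl

theorem l1 (i : Fin 4) : K401.Adj (Sum.inl i) (Sum.inr 1) ↔ i = 1 := Iff.rfl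

theorem rr (i j : Fin 2) : ¬ K401.Adj (Sum.inr i) (Sum.inr j) := fun h => h

end aM1Aux

/-- **M1.** -/
theorem aM1 : S_M1 := by
  intro V G A B C D P Q cA cB cC cD cP cQ dAB dAC dAD dAP dAQ dBC dBD dBP dBQ dCD dCP dCQ dDP dDQ
    dPQ tAB tAC tAD tBC tBD tCD tAP tBQ nAQ nBP nCP nCQ nDP nDQ nPQ
  have key : ∀ w w' : Fin 4 ⊕ Fin 2, w ≠ w' →
      Disjoint ((Sum.elim ![A, B, C, D] ![P, Q] : Fin 4 ⊕ Fin 2 → Set V) w)
        ((Sum.elim ![A, B, C, D] ![P, Q] : Fin 4 ⊕ Fin 2 → Set V) w') := by
    rintro (i | i) (j | j) h <;> fin_cases i <;> fin_cases j <;> first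
      | exact absurd rfl h
      | exact dAB
      | exact dAC
      | exact dAD
      | exact dAP
      | exact dAQ
      | exact dBC
      | exact dBD
      | exact dBP
      | exact dBQ
      | exact dCD
      | exact dCP
      | exact dCQ
      | exact dDP
      | exact dDQ
      | exact dPQ
      | exact dAB.symm
      | exact dAC.symm
      | exact dAD.symm
      | exact dAP.symm
      | exact dAQ.symm
      | exact dBC.symm
      | exact dBD.symm
      | exact dBP.symm
      | exact dBQ.symm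
      | exact dCD.symm
      | exact dCP.symm
      | exact dCQ.symm
      | exact dDP.symm
      | exact dDQ.symm
      | exact dPQ.symm
  have tsymm : ∀ {X Y : Set V}, Tch G X Y → Tch G Y X := fun h => h.symm
  have nsymm : ∀ {X Y : Set V}, ¬ Tch G X Y → ¬ Tch G Y X := fun h h' => h h'.symm
  have k1 : ∀ i j : Fin 4, i < j → Tch G ((![A, B, C, D] : Fin 4 → Set V) i)
      ((![A, B, C, D] : Fin 4 → Set V) j) := by
    intro i j h
    fin_cases i <;> fin_cases j <;> first
      | exact absurd h (by decide)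
      | exact tAB
      | exact tAC
      | exact tAD
      | exact tBC
      | exact tBD
      | exact tCD
  have k2 : ∀ i : Fin 4, (i = 0 ↔ Tch G ((![A, B, C, D] : Fin 4 → Set V) i) P) := by
    intro i
    fin_cases i
    · exact iff_of_true rfl tAP
    · exact iff_of_false (by decide) nBP
    · exact iff_of_false (by decide) nCP
    · exact iff_of_false (by decide) nDP
  have k3 : ∀ i : Fin 4, (i = 1 ↔ Tch G ((![A, B, C, D] : Fin 4 → Set V) i) Q) := by
    intro i
    fin_cases i
    · exact iff_of_false (by decide) nAQ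
    · exact iff_of_true rfl tBQ
    · exact iff_of_false (by decide) nCQ
    · exact iff_of_false (by decide) nDQ
  have k4 : ∀ (i : Fin 4) (q : Fin 2), (K401.Adj (Sum.inl i) (Sum.inr q) ↔
      Tch G ((![A, B, C, D] : Fin 4 → Set V) i) ((![P, Q] : Fin 2 → Set V) q)) := by
    intro i q
    fin_cases q
    · exact (aM1Aux.l0 i).trans (k2 i)
    · exact (aM1Aux.l1 i).trans (k3 i)
  refine ⟨Sum.elim ![A, B, C, D] ![P, Q], fun w => Set.subset_univ _, ?_, key, ?_⟩
  · rintro (i | i) <;> fin_cases i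
    exacts [cA, cB, cC, cD, cP, cQ]
  · rintro (i | i) (j | j) h
    · have hij : i ≠ j := fun h' => h (h' ▸ rfl)
      refine iff_of_true ((aM1Aux.ll i j).2 hij) ?_
      rcases lt_or_gt_of_ne hij with h1 | h1
      · exact k1 i j h1
      · exact tsymm (k1 j i h1)
    · exact k4 i j
    · rw [SimpleGraph.adj_comm]
      exact (k4 j i).trans ⟨fun h1 => h1.symm, fun h1 => h1.symm⟩
    · refine iff_of_false (aM1Aux.rr i j) ?_
      have hij : i ≠ j := fun h' => h (h' ▸ rfl)
      fin_cases i <;> fin_cases j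
      · exact absurd rfl hij
      · exact nPQ
      · exact nsymm nPQ
      · exact absurd rfl hij

end Pool.Agent.MPd439b2.A0
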