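import Pool.Agent.Lib.MP_d439b2_co.A0.Spec
import Pool.Agent.Lib.MP_d439b2_co.ImsTrans

/-!
# MP_d439b2_co, A0, Q0: a large model of a complete graph gives a large complete bipartite subgraph
-/

set_option autoImplicit false

namespace Pool.Agent.MPd439b2.A0

open Pool.Agent.MPd439b2
open Pool.Agent.MPd439b2.Rep
open Pool.Agent.MPd439b2.F9

namespace aQ0Aux

/-- an induced subgraph is an induced minor -/
theorem ims_emb {W V : Type} {H : SimpleGraph W} {G : SimpleGraph V} (f : W → V)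
    (hf : Function.Injective f) (h : ∀ u v, H.Adj u v ↔ G.Adj (f u) (f v)) :
    IMS H G Set.univ := by
  refine ⟨fun w => {f w}, fun _ => Set.subset_univ _, fun w => Conn.singleton G _, ?_, ?_⟩
  · intro w w' hne
    rw [Set.disjoint_singleton]
    exact fun h' => hne (hf h')
  · intro w w' _
    rw [h w w']
    constructor
    · intro hadj
      exact ⟨f w, rfl, f w', rfl, hadj⟩
    · rintro ⟨a, ha, b, hb, hab⟩
      rw [Set.mem_singleton_iff] at ha hb
      rwa [ha, hb] at hab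

theorem ims_trans {V W W' : Type} {G : SimpleGraph V} {H : SimpleGraph W} {F : SimpleGraph W'}
    (h1 : IMS H F Set.univ) (h2 : IMS F G Set.univ) : IMS H G Set.univ :=
  imsTrans V W W' G H F Set.univ h1 h2

theorem kf_eq : (KF 4 2 ![{0}, {1}] : SimpleGraph (Fin 4 ⊕ Fin 2)) = K401 := by
  have h : (fun q => ((![{0}, {1}] : Fin 2 → Finset (Fin 4)) q : Set (Fin 4))) =
      (![{0}, {1}] : Fin 2 → Set (Fin 4)) := by
    funext q
    fin_cases q
    · exact Finset.coe_singleton 0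
    · exact Finset.coe_singleton 1
  unfold KF
  rw [h]

theorem k_sub : IMS K401 (KJ 1 (KF 4 2 ![{0}, {1}])) Set.univ := by
  rw [kf_eq]
  exact ims_emb Sum.inr Sum.inr_injective fun u v => Iff.rfl

end aQ0Aux

open aQ0Aux in
/-- **Q0.** -/
theorem aQ0 : S_Q0 := by
  intro hU9 hZ0 hI1 n
  obtain ⟨⟨N₁, m₁, hD⟩, N₂, m₂, r, l, hT⟩ := hI1.2.1
  obtain ⟨N, m, r', l', -, -, hD', hT', -⟩ := hZ0 _ _ _ _ N₁ m₁ N₂ m₂ r l hD hT
  obtain ⟨t₀, ht⟩ := hU9 N m n r' l'
  refine ⟨t₀, ?_⟩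
  intro V _ G B hG hB
  rw [← ims_univ_iff] at hD' hT'
  obtain ⟨Q₁, Q₂, h1, h2, h3, h4, -⟩ := ht t₀ le_rfl V G B
    (fun h => hG (ims_trans (ims_trans k_sub hD') h))
    (fun h => hG (ims_trans (ims_trans k_sub hT') h)) hB
  exact ⟨Q₁, Q₂, h1, h2, h3, h4⟩

end Pool.Agent.MPd439b2.A0
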