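import Pool.Agent.Lib.MP_d439b2_co.Rep.Cut
import Pool.Agent.Lib.MP_d439b2_co.F9.SpecI
import Pool.Agent.Lib.MP_d439b2_co.KS.SpecY
import Pool.Agent.Lib.MP_d439b2_co.W.SpecE

/-!
# MP_d439b2_co, A0: large cliques exist (`K4:0,1`; note 2793 of helper47, refereed in 2799)

**Theorem A0.** Let `J_t = co(P_3 + t P_2)`.  For all `s, t` and `β` there are `c₀, k` such that every graph
`G` without the induced minors `K4:0,1` and `J_t`, without cliques of size `s`, and with `Link β c₀ G` has a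
layout of width `k`.

Every `S_...` is a statement to be proved in its own file; the docstring contains the complete proof; the used
statements are hypotheses of the theorem, in the order given in `(Uses ...)`.  The theorem for `S_X` is
called `aX` and is in the file `A0/X.lean`.  `a ~ b` means `G.Adj a b`.
-/

set_option autoImplicit false

namespace Pool.Agent.MPd439b2.A0

open Pool.Agent.MPd439b2
open Pool.Agent.MPd439b2.Rep
open Pool.Agent.MPd439b2.F9

/-- `K4:0,1` -/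
abbrev K401 : SimpleGraph (Fin 4 ⊕ Fin 2) := KA 4 2 ![{0}, {1}]

/-- `J_t`, the complement of `P_3 + t P_2` -/
abbrev JP (t : ℕ) : SimpleGraph (Option (Σ i : Fin 3, Fin ((![0, 1, 1] : Fin 3 → ℕ) i)) ⊕ (Fin t × Bool)) :=
  JS ![0, 1, 1] t

/-- `Q` is a stable set -/
def StO {V : Type} (G : SimpleGraph V) (Q : Set V) : Prop := ∀ u ∈ Q, ∀ v ∈ Q, ¬ G.Adj u v

/-- one of the three patterns of size `m`, both sides stable -/
def Has3s {V : Type} (G : SimpleGraph V) (A B : Set V) (m : ℕ) : Prop :=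
  ∃ a b, (BP G A B m a b (fun i j => i = j) ∨ BP G A B m a b (fun i j => i ≠ j) ∨
    BP G A B m a b (fun i j => i ≤ j)) ∧ (∀ i < m, ∀ j < m, ¬ G.Adj (a i) (a j)) ∧
      ∀ i < m, ∀ j < m, ¬ G.Adj (b i) (b j)

/-- **M1.** A builder for models of `K4:0,1`.

Proof. `B (inl 0) = A`, `B (inl 1) = B`, `B (inl 2) = C`, `B (inl 3) = D`, `B (inr 0) = P`, `B (inr 1) = Q`.
(`KA 4 2 N`: `inl i ~ inl j` iff `i ≠ j`; `inr q ~ inl i` iff `i ∈ N q`; no edges `inr - inr`.) -/
def S_M1 : Prop := ∀ (V : Type) (G : SimpleGraph V) (A B C D P Q : Set V), Conn G A → Conn G B →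
  Conn G C → Conn G D → Conn G P → Conn G Q →
  Disjoint A B → Disjoint A C → Disjoint A D → Disjoint A P → Disjoint A Q → Disjoint B C →
  Disjoint B D → Disjoint B P → Disjoint B Q → Disjoint C D → Disjoint C P → Disjoint C Q →
  Disjoint D P → Disjoint D Q → Disjoint P Q →
  Tch G A B → Tch G A C → Tch G A D → Tch G B C → Tch G B D → Tch G C D → Tch G A P → Tch G B Q →
  ¬ Tch G A Q → ¬ Tch G B P → ¬ Tch G C P → ¬ Tch G C Q → ¬ Tch G D P → ¬ Tch G D Q →
  ¬ Tch G P Q → IMS K401 G Set.univ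

/-- **PA.** A half graph of two stable sets contains `K4:0,1`.  (Uses `S_M1`.)

Proof. The `x i` are different (`x i`, `i > j`, sees `y j`; `x j` does not), the `y j` with `j < 7` as well, and
`x i ≠ y j` for the indices used (a vertex `x i`, `i ≥ 1`, sees `y 0`, but the `y`'s are pairwise non-adjacent).
M1 with `A = {y 1}`, `B = {x 7}`, `C = {x 5, y 3}`, `D = {x 6, y 4}`, `P = {x 2}`, `Q = {y 6}`. -/
def S_PA : Prop := ∀ (V : Type) (G : SimpleGraph V) (x y : ℕ → V),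
  (∀ i < 8, ∀ j < 8, ¬ G.Adj (x i) (x j)) → (∀ i < 8, ∀ j < 8, ¬ G.Adj (y i) (y j)) →
  (∀ i < 8, ∀ j < 8, (G.Adj (x i) (y j) ↔ j < i)) → IMS K401 G Set.univ

/-- **PB.** A co-matching of two stable sets (the rook) contains `J_t`.

Proof. All the vertices are different (`a i ≠ a j`: `w j` sees `a i` and not `a j`; `a i ≠ w j`: `a i` sees a `w`).
`Spid ![0, 1, 1]`: the centre `none` and the leaves `some ⟨1, 0⟩`, `some ⟨2, 0⟩`.  Branch sets:
`inl none ↦ {a 1, w 2}`, `inl (some ⟨1, 0⟩) ↦ {a 2}`, `inl (some ⟨2, 0⟩) ↦ {w 1}`,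
`inr (q, false) ↦ {a (2 q + 3), w (2 q + 4)}`, `inr (q, true) ↦ {a (2 q + 4), w (2 q + 3)}`.  In `JP t`: `none` is
not adjacent to the two leaves, the leaves are adjacent; `(q, false)`, `(q, true)` are not adjacent; all others are
adjacent.  `{a i, w j}`, `i ≠ j`, is connected; `{a i, w j}` and `{a i', w j'}` touch iff `i ≠ j'` or `i' ≠ j`. -/
def S_PB : Prop := ∀ (t : ℕ) (V : Type) (G : SimpleGraph V) (a w : ℕ → V),
  (∀ i < 2 * t + 3, ∀ j < 2 * t + 3, ¬ G.Adj (a i) (a j)) →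
  (∀ i < 2 * t + 3, ∀ j < 2 * t + 3, ¬ G.Adj (w i) (w j)) →
  (∀ i < 2 * t + 3, ∀ j < 2 * t + 3, (G.Adj (a i) (w j) ↔ i ≠ j)) → IMS (JP t) G Set.univ

/-- **PC.** A matching and three vertices complete to one side contain `K4:0,1`.  (Uses `S_M1`.)

Proof. M1 with `A = {f 0}`, `B = {f 1, q 0}`, `C = {f 2, q 1}`, `D = {f 3, q 2}`, `P = {g 0}`, `Q = {g 1}`.  (All
vertices are different: `f i ~ q j`; `g j ≠ q k` since `f 2 ~ q k`, `f 2 ≁ g j`; `f i ≠ g j` since `f i ~ q 0`,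
`g j ≁ q 0`; `f 0`, `f 1` are different from each other and from `f 2, f 3` because of `g 0`, `g 1`.) -/
def S_PC : Prop := ∀ (V : Type) (G : SimpleGraph V) (f g q : ℕ → V), f 2 ≠ f 3 →
  (∀ i < 3, ∀ j < 3, q i = q j → i = j) →
  (∀ i < 4, ∀ j < 2, (G.Adj (f i) (g j) ↔ i = j)) → (∀ i < 4, ∀ j < 3, G.Adj (f i) (q j)) →
  (∀ i < 2, ∀ j < 3, ¬ G.Adj (g i) (q j)) → ¬ G.Adj (g 0) (g 1) → IMS K401 G Set.univ

/-- **Ra.** Patterns with stable sides.  (Uses `W.S_RamC`.)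

Proof. `M` = the number of `W.S_RamC` for the colours `Bool × Bool` (or `Prop × Prop`) and `max m s`;
`χ i j = (a i ~ a j, b i ~ b j)`.  The sequence `i ↦ σ i` of `S_RamC` is increasing on `i < max m s`, so
`a ∘ σ`, `b ∘ σ` have the same pattern (`i = j`, `i ≠ j`, `i ≤ j` are preserved).  The `a i`, `i < M`, are
different, and the `b i` as well (in all three patterns).  If the first colour is `true` the `s` vertices
`a (σ i)`, `i < s`, form a clique, against `CliqueFree s`; the same for `b`. -/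
def S_Ra : Prop := W.S_RamC → ∀ s m : ℕ, ∃ M : ℕ, ∀ (V : Type) (G : SimpleGraph V),
  G.CliqueFree s → ∀ A B : Set V, Has3 G A B M → Has3s G A B m

/-- **Rs.** Large sets contain large stable sets.  (Uses `W.S_RamC`.)

Proof. `M` = the number of `W.S_RamC` for the colours `Bool` and `max N s` (enumerate `X` injectively by
`i < M`); colour `true` gives a clique with `s` elements. -/
def S_Rs : Prop := W.S_RamC → ∀ s N : ℕ, ∃ M : ℕ, ∀ (V : Type) [Finite V] (G : SimpleGraph V),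
  G.CliqueFree s → ∀ X : Set V, M ≤ X.ncard → ∃ Q ⊆ X, StO G Q ∧ N ≤ Q.ncard

/-- **Cl.** Cleaning.  (Uses `W.S_RamC`, `S_PA`, `S_PB`.)

Proof. `m = max s (2 t + 3 + 8)`, `K` = the number of `W.S_RamC` for the colours `Bool × Bool` and `m`,
`N = 10 ^ K * (n' + 1)`.  Suppose that there is no `Q'`.  CLAIM: for `k ≤ K` there are `v i`, `q i` (`i < k`) and
`Q_k ⊆ Q` with `10 ^ (K - k) * (n' + 1) ≤ |Q_k|`, `q i ∈ Q`, `v i ≁ q i`, `v i ~ q j` for `i < j < k`, and
`v i ~ x` for all `x ∈ Q_k`, `i < k`.  Step: `Q_k` is not a possible `Q'`, so there is `v` which is not complete to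
`Q_k` and sees at least a tenth of it; `v k = v`, `q k ∈ Q_k` not adjacent to `v`, `Q_(k+1) = {x ∈ Q_k | v ~ x}`.
For `k = K`: `S_RamC` with `χ i j = (v i ~ v j, v j ~ q i)` for `i < j`: `σ`, colour `(ε, δ)`.  The `v i` are
different (`v i ≁ q i`; for `i < j` `v i ~ q j`, `v j ≁ q j`), so `ε = true` gives a clique with `s` elements.  So
`v (σ i)` are pairwise non-adjacent, the `q i` too (`Q` is stable).  `δ = true`: `v (σ i) ~ q (σ j)` iff `i ≠ j`: PB.
`δ = false`: `v (σ i) ~ q (σ j)` iff `i < j`: PA with `x = q ∘ σ`, `y = v ∘ σ`. -/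
def S_Cl : Prop := W.S_RamC → ∀ s t n' : ℕ, ∃ N : ℕ, ∀ (V : Type) [Finite V] (G : SimpleGraph V),
  Rep.Fr K401 (JP t) G → G.CliqueFree s → ∀ Q : Set V, StO G Q → N ≤ Q.ncard →
    ∃ Q' ⊆ Q, n' ≤ Q'.ncard ∧
      ∀ v, (∀ x ∈ Q', G.Adj v x) ∨ 10 * {x | x ∈ Q' ∧ G.Adj v x}.ncard < Q'.ncard

/-- **Cu.** The majority cut: large stable sets have few common neighbours.  (Uses `S_PA`, `S_PB`, `S_PC`,
`S_Ra`, `W.S_RamC`, `S_Cl`.)

Proof. `m₁ = 2 t + 20`, `M` from Ra for `s`, `m₁`; `c₁` from `Rep.rk3 M`; `N` from Cl for `n' = β c₁ + 10`.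
Let `Q' ⊆ Q` be as in Cl, `F = {v | ∀ x ∈ Q', v ~ x}`; the common neighbours of `Q` are in `F`.
CLAIM: `¬ Has3 G F Fᶜ M`, so `cr G F = rk G F Fᶜ ≤ c₁`.  Otherwise Ra gives `a i ∈ F`, `b i ∉ F`, `i < m₁`, both
sides stable.  `a i ~ b j` iff `i ≤ j`: PA with `x i = b (2 i)`, `y j = a (2 j + 1)`.  `i ≠ j`: PB.  `i = j`:
`b 0` and `b 1` are not complete to `Q'`, so together they see less than a fifth of `Q'`, and there are three
different elements `q 0, q 1, q 2` of `Q'` which they do not see; PC with `f = a`, `g = b`.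
`Q' ⊆ Fᶜ` (`Q'` is stable, and an element of `F` is adjacent to all elements of `Q'`), so `Fᶜ` has more than
`β c₁` elements, and `Link` (with `c = c₁ ≤ c₀`) gives `|F| ≤ β c₁`. -/
def S_Cu : Prop := W.S_RamC → ∀ s t : ℕ, ∃ c₁ : ℕ, ∀ β : ℕ → ℕ, ∃ N : ℕ, ∀ c₀ : ℕ, c₁ ≤ c₀ →
  ∀ (V : Type) [Finite V] (G : SimpleGraph V), Rep.Fr K401 (JP t) G → G.CliqueFree s → Link β c₀ G →
    ∀ Q : Set V, StO G Q → N ≤ Q.ncard → {v | ∀ x ∈ Q, G.Adj v x}.ncard ≤ β c₁

/-- **Gr.** `K4:0,1` is an induced minor of a grid.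

Proof. A model in the `5 × 5` grid (compare `inGrid_of`, `grid_co` in `F9/I9.lean`; copy and adapt): row `0`:
the cell `(0, 0)` is `inr 0`; row `1`: the four cells `(1, 0), .., (1, 3)` are `inl 0`; row `2`: `(2, 0)` is `inl 2`,
`(2, 1)` is `inl 3`, `(2, 2)` is `inl 0`; row `3`: `(3, 0), .., (3, 3)` are `inl 1`; row `4`: `(4, 0)` is
`inr 1`; the other cells are not used. -/
def S_Gr : Prop := InGrid K401

/-- **Kt.** Without a large model of a complete graph the width is bounded.  (Uses `S_Gr`, the sufficiency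
of `Good` (`F9.goodF`), and `KS.S_Y8`.)

Proof. `Good (⊤ : SimpleGraph (Fin r)) K401`: `InGrid K401`, `InS2 ⊤` (`K = univ`), `IsComplete ⊤`.  So
`BoundedCW ⊤ K401` with a bound `c`; `k = c`.  If `G` has no model `Mdl G (range r) B` then `¬ IsIndMinor ⊤ G` (the
branch sets of a model of `⊤` on `Fin r`, extended by `∅`, form a model `Mdl`; `conn_iff`), so `CWLe c G` and
`Lay G c univ` (`KS.S_Y8`); for empty `V`: `Lay.empty` (`Set.univ = ∅`). -/
def S_Kt : Prop := (∀ (W₁ W₂ : Type) [Finite W₁] [Finite W₂] (H₁ : SimpleGraph W₁)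
    (H₂ : SimpleGraph W₂), Good H₁ H₂ → BoundedCW H₁ H₂) → KS.S_Y8 →
  ∀ r : ℕ, ∃ k : ℕ, ∀ (V : Type) [Finite V] (G : SimpleGraph V), ¬ IMS K401 G Set.univ →
    (¬ ∃ B : ℕ → Set V, Mdl G (Finset.range r) B) → Lay G k Set.univ

/-- **Q0.** A large model of a complete graph gives a large complete bipartite subgraph.  (Uses `KS.S_U9`, `KS.S_Z0`,
`F9.S_I1`, `imsTrans`.)

Proof. `F9.S_I1` contains `DT (KJ 1 (KF 4 2 ![{0}, {1}]))`: this graph is an induced minor of some `DD N m` and of some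
`TCg N' m' r l`.  `K401 = KA 4 2 ![{0}, {1}]` is an induced subgraph of `KJ 1 (KF 4 2 ![{0}, {1}])` (`KF` is `KA` with
finite sets; coercions), so (transitivity of induced minors, `imsTrans`, `ims_univ_iff`) `K401` is an induced
minor of `DD N m` and of `TCg N' m' r l`.  The two numbers `N, m` have to be the same in `U9`: this is `KS.S_Z0`
(`KS/SpecZ.lean`, proved in `KS/Z0.lean`).
A graph without `K401` contains neither of them; `U9` with `n`. -/
def S_Q0 : Prop := KS.S_U9 → KS.S_Z0 → S_I1 → ∀ n : ℕ, ∃ t₀ : ℕ, ∀ (V : Type) [Finite V] (G : SimpleGraph V)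
  (B : ℕ → Set V), ¬ IMS K401 G Set.univ → Mdl G (Finset.range t₀) B →
    ∃ Q₁ Q₂ : Set V, Disjoint Q₁ Q₂ ∧ n ≤ Q₁.ncard ∧ n ≤ Q₂.ncard ∧ ∀ a ∈ Q₁, ∀ b ∈ Q₂, G.Adj a b

/-- **Theorem A0.** (Uses `W.S_RamC`, `S_Rs`, `S_Cu`, `S_Q0`, `KS.S_U9`, `KS.S_Z0`, `S_I1`, `S_Kt`, and its two
hypotheses.)

Proof. `c₁` and (for `β`) `N` from Cu, `c₀ = c₁`; `M` from Rs for `s, N`; `n = max M (β c₁ + 1)`; `t₀` from Q0 for
`n`; `k` from Kt for `r = t₀`.  If `G` has a model `Mdl G (range t₀) B`, then Q0 gives `Q₁`, `Q₂`; Rs gives a stable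
set `Q ⊆ Q₁` with `N` elements; all elements of `Q₂` are common neighbours of `Q`, more than `β c₁`: contradiction
to Cu.  So there is no such model, and Kt. -/
def S_A0 : Prop := ∀ (s t : ℕ) (β : ℕ → ℕ), ∃ c₀ k : ℕ, ∀ (V : Type) [Finite V]
  (G : SimpleGraph V), Rep.Fr K401 (JP t) G → Link β c₀ G → G.CliqueFree s → Lay G k Set.univ

end Pool.Agent.MPd439b2.A0
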